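import Pool.Agent.H15.FLX.Targets

/-!
Row EXX of the board flx_modules (MP_c62aed_lc): few sequences of scopes violate `H1`.
-/

set_option autoImplicit false

namespace Pool.Agent.H40.FLX

open Finset
open Pool.Agent.H15.FLX
open Pool.Agent.H53.MC (scope cnt H1)

theorem bad_count {G α : Type*} [Fintype G] [DecidableEq G] (A : Finset α)
    (P : α → G → Prop) [∀ a, DecidablePred (P a)] (M s : ℕ) (ρ : ℝ)
    (hρ : ∀ a ∈ A, ((univ.filter (P a)).card : ℝ) ≤ ρ * Fintype.card G)
    (B : Finset (Fin M → G))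
    (hB : ∀ g ∈ B, ∃ a ∈ A, s < (univ.filter (fun j => P a (g j))).card) :
    (B.card : ℝ) ≤
      (A.card : ℝ) * (M.choose (s + 1)) * (ρ ^ (s + 1) * (Fintype.card G : ℝ) ^ M) := by
  classical
  let Bd : Finset (Fin M → G) :=
    A.biUnion fun a => (powersetCard (s + 1) (univ : Finset (Fin M))).biUnion fun J =>
      Fintype.piFinset fun j => if j ∈ J then univ.filter (P a) else univ
  have hall : B ⊆ Bd := by
    intro g hg
    obtain ⟨a, ha, hc⟩ := hB g hg
    obtain ⟨J, hJ, hJc⟩ := exists_subset_card_eq (Nat.succ_le_of_lt hc)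
    simp only [Bd, mem_biUnion, mem_powersetCard]
    refine ⟨a, ha, J, ⟨subset_univ _, hJc⟩, ?_⟩
    rw [Fintype.mem_piFinset]
    intro j
    by_cases hj : j ∈ J
    · have := hJ hj
      simp only [mem_filter, mem_univ, true_and] at this
      simp [hj, this]
    · simp [hj]
  have h2 : (Bd.card : ℝ) ≤ ∑ a ∈ A, ∑ J ∈ powersetCard (s + 1) (univ : Finset (Fin M)),
      ((Fintype.piFinset fun j => if j ∈ J then univ.filter (P a) else univ).card : ℝ) := by
    have h3 : Bd.card ≤ ∑ a ∈ A, ∑ J ∈ powersetCard (s + 1) (univ : Finset (Fin M)),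
        (Fintype.piFinset fun j => if j ∈ J then univ.filter (P a) else univ).card :=
      le_trans card_biUnion_le (sum_le_sum fun a _ => card_biUnion_le)
    exact_mod_cast h3
  have h4 : ∀ a ∈ A, ∀ J ∈ powersetCard (s + 1) (univ : Finset (Fin M)),
      ((Fintype.piFinset fun j => if j ∈ J then univ.filter (P a) else univ).card : ℝ) ≤
        ρ ^ (s + 1) * (Fintype.card G : ℝ) ^ M := by
    intro a ha J hJ
    rw [mem_powersetCard] at hJ
    rw [Fintype.card_piFinset]
    push_cast
    have hfac : ∀ j : Fin M, (((if j ∈ J then univ.filter (P a) else univ : Finset G).card : ℕ) : ℝ)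
        ≤ (if j ∈ J then ρ else 1) * (Fintype.card G : ℝ) := by
      intro j
      by_cases hj : j ∈ J
      · simpa [hj] using hρ a ha
      · simp [hj, Finset.card_univ]
    calc ∏ j : Fin M, (((if j ∈ J then univ.filter (P a) else univ : Finset G).card : ℕ) : ℝ)
        ≤ ∏ j : Fin M, (if j ∈ J then ρ else 1) * (Fintype.card G : ℝ) :=
          prod_le_prod (fun _ _ => by positivity) (fun j _ => hfac j)
      _ = (∏ j : Fin M, (if j ∈ J then ρ else 1)) * (Fintype.card G : ℝ) ^ M := by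
          rw [prod_mul_distrib]; simp
      _ = ρ ^ (s + 1) * (Fintype.card G : ℝ) ^ M := by
          congr 1
          rw [prod_ite, prod_const, prod_const_one, mul_one]
          congr 1
          rw [← hJ.2]; congr 1; ext j; simp
  calc (B.card : ℝ) ≤ (Bd.card : ℝ) := by exact_mod_cast card_le_card hall
    _ ≤ _ := h2
    _ ≤ ∑ a ∈ A, ∑ J ∈ powersetCard (s + 1) (univ : Finset (Fin M)),
        (ρ ^ (s + 1) * (Fintype.card G : ℝ) ^ M) :=
        sum_le_sum fun a ha => sum_le_sum fun J hJ => h4 a ha J hJ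
    _ = _ := by
        rw [sum_const, sum_const, card_powersetCard, nsmul_eq_mul, nsmul_eq_mul]
        simp only [card_univ, Fintype.card_fin]
        ring

theorem scope_en {n k M : ℕ} (e : Scopes n k M) (j : Fin M) : scope (en e) j = (e j).1 := by
  ext v
  unfold scope en
  rw [mem_image]
  constructor
  · rintro ⟨i, -, rfl⟩
    exact Finset.orderEmbOfFin_mem _ _ _
  · intro hv
    have h1 : v ∈ Set.range ((e j).1.orderEmbOfFin (e j).2) := by
      rw [Finset.range_orderEmbOfFin]
      exact hv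
    obtain ⟨i, hi⟩ := h1
    exact ⟨i, mem_univ _, hi⟩

theorem pf_EXX (hSUB : T_SUB) : T_EXX := by
  classical
  intro ε β n k M w s₀ hε hβ hw hM hn
  set S : ℕ := Fintype.card {B : Finset (Fin n) // B.card = k} with hS
  have hcard : Nat.card (Scopes n k M) = S ^ M := by
    rw [Nat.card_eq_fintype_card, Fintype.card_fun, Fintype.card_fin]
  have hb := bad_count (G := {B : Finset (Fin n) // B.card = k})
    ((univ : Finset (Finset (Fin n))).filter fun A => A.card ≤ w + k)
    (fun A B => B.1 ⊆ A) M s₀ (β ^ k) (by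
      intro A hA
      have hAc : A.card ≤ w + k := (mem_filter.1 hA).2
      have hAr : (A.card : ℝ) ≤ β * n := by
        refine le_trans ?_ hw
        exact_mod_cast hAc
      have h1 := hSUB β n k A hβ.le hAr
      rw [Nat.card_eq_fintype_card, Nat.card_eq_fintype_card, Fintype.card_subtype] at h1
      exact h1)
    ((univ : Finset (Scopes n k M)).filter fun e => ¬ H1 (en e) w s₀) (by
      intro e he
      have h1 : ¬ H1 (en e) w s₀ := (mem_filter.1 he).2
      unfold H1 at h1
      push Not at h1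
      obtain ⟨A, hA, hc⟩ := h1
      refine ⟨A, mem_filter.2 ⟨mem_univ _, hA⟩, lt_of_lt_of_le hc (le_of_eq ?_)⟩
      unfold cnt
      simp only [scope_en])
  have hA : (((univ : Finset (Finset (Fin n))).filter fun A => A.card ≤ w + k).card : ℝ) ≤
      2 ^ (n : ℝ) := by
    have h1 : ((univ : Finset (Finset (Fin n))).filter fun A => A.card ≤ w + k).card ≤ 2 ^ n := by
      refine le_trans (card_filter_le _ _) ?_
      simp
    rw [Real.rpow_natCast]
    exact_mod_cast h1
  have hC : ((M.choose (s₀ + 1) : ℕ) : ℝ) ≤ (M : ℝ) ^ (s₀ + 1) := by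
    exact_mod_cast Nat.choose_le_pow M (s₀ + 1)
  have hkey : (2 : ℝ) ^ (n : ℝ) * (((univ : Finset (Finset (Fin n))).filter
      fun A => A.card ≤ w + k).card * (M.choose (s₀ + 1)) * (β ^ k) ^ (s₀ + 1)) ≤ 1 := by
    calc _ ≤ (2 : ℝ) ^ (n : ℝ) * ((2 : ℝ) ^ (n : ℝ) * (M : ℝ) ^ (s₀ + 1) *
          (β ^ k) ^ (s₀ + 1)) := by
          gcongr
      _ = (2 : ℝ) ^ (n : ℝ) * ((2 : ℝ) ^ (n : ℝ) * ((M : ℝ) * β ^ k) ^ (s₀ + 1)) := by
          rw [mul_pow]; ring
      _ ≤ (2 : ℝ) ^ (n : ℝ) * ((2 : ℝ) ^ (n : ℝ) * ((2 : ℝ) ^ (-(ε * k))) ^ (s₀ + 1)) := by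
          gcongr
      _ = (2 : ℝ) ^ (2 * (n : ℝ) - ε * k * (s₀ + 1)) := by
          rw [← Real.rpow_natCast ((2 : ℝ) ^ (-(ε * k))), ← Real.rpow_mul (by norm_num),
            ← Real.rpow_add (by norm_num), ← Real.rpow_add (by norm_num)]
          congr 1
          push_cast
          ring
      _ ≤ (2 : ℝ) ^ (0 : ℝ) := Real.rpow_le_rpow_of_exponent_le (by norm_num) (by linarith)
      _ = 1 := Real.rpow_zero 2
  have hnc : Nat.card {e : Scopes n k M // ¬ H1 (en e) w s₀} =
      ((univ : Finset (Scopes n k M)).filter fun e => ¬ H1 (en e) w s₀).card := by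
    rw [Nat.card_eq_fintype_card, Fintype.card_subtype]
  rw [hnc, hcard]
  have hfin : ((2 ^ n * ((univ : Finset (Scopes n k M)).filter
      fun e => ¬ H1 (en e) w s₀).card : ℕ) : ℝ) ≤ ((S ^ M : ℕ) : ℝ) := by
    push_cast
    have h3 : (0 : ℝ) ≤ (S : ℝ) ^ M := by positivity
    calc (2 : ℝ) ^ n * (((univ : Finset (Scopes n k M)).filter
          fun e => ¬ H1 (en e) w s₀).card : ℝ)
        ≤ (2 : ℝ) ^ n * ((((univ : Finset (Finset (Fin n))).filter
          fun A => A.card ≤ w + k).card : ℝ) * (M.choose (s₀ + 1)) *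
            ((β ^ k) ^ (s₀ + 1) * (S : ℝ) ^ M)) :=
          mul_le_mul_of_nonneg_left hb (by positivity)
      _ = ((2 : ℝ) ^ (n : ℝ) * (((univ : Finset (Finset (Fin n))).filter
            fun A => A.card ≤ w + k).card * (M.choose (s₀ + 1)) * (β ^ k) ^ (s₀ + 1))) *
              (S : ℝ) ^ M := by
          rw [Real.rpow_natCast]
          ring
      _ ≤ 1 * (S : ℝ) ^ M := mul_le_mul_of_nonneg_right hkey h3
      _ = (S : ℝ) ^ M := one_mul _
  exact_mod_cast hfin

end Pool.Agent.H40.FLX
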